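import Pool.Agent.W295.PR.Stm

/-!
Project PR (helper295): the abstract torsion lemma.
-/

set_option autoImplicit false

namespace Pool.Agent.W54.PR.TOR

open Pool.Agent.W295.PR Finset

theorem prod_zpow_sum {ι V : Type} [CommGroup V] (v : V) (s : Finset ι) (e : ι → ℤ) :
    ∏ i ∈ s, v ^ (e i) = v ^ (∑ i ∈ s, e i) := by
  classical
  induction s using Finset.induction_on with
  | empty => rw [prod_empty, sum_empty, zpow_zero]
  | insert a s ha ih => rw [prod_insert ha, sum_insert ha, ih, zpow_add]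

/-- integer inverse of the Vandermonde matrix -/
theorem vander (E : ℕ) : ∃ N1 : ℕ, 1 ≤ N1 ∧ ∃ c : ℕ → ℕ → ℤ, ∀ w ∈ range (E + 1),
    ∀ w' ∈ range (E + 1), ∑ r ∈ range (E + 1), (r : ℤ) ^ w' * c w r =
      if w' = w then (N1 : ℤ) else 0 := by
  classical
  obtain ⟨A, hA⟩ : ∃ A : Matrix (Fin (E + 1)) (Fin (E + 1)) ℤ,
    A = Matrix.vandermonde (fun r : Fin (E + 1) => ((r : ℕ) : ℤ)) := ⟨_, rfl⟩
  have hdet : A.det ≠ 0 := by
    rw [hA, Matrix.det_vandermonde_ne_zero_iff]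
    intro a b hab
    have h1 : ((a : ℕ) : ℤ) = ((b : ℕ) : ℤ) := hab
    exact Fin.ext (by exact_mod_cast h1)
  refine ⟨(A.det ^ 2).natAbs, ?_, fun w r => if h : w < E + 1 ∧ r < E + 1 then
    A.det * A.adjugate ⟨w, h.1⟩ ⟨r, h.2⟩ else 0, ?_⟩
  · exact Int.natAbs_pos.2 (pow_ne_zero 2 hdet)
  · intro w hw w' hw'
    rw [mem_range] at hw hw'
    rw [Finset.sum_range]
    have h1 : ∀ r : Fin (E + 1), (((r : ℕ) : ℤ)) ^ w' * (if h : w < E + 1 ∧ (r : ℕ) < E + 1 then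
        A.det * A.adjugate ⟨w, h.1⟩ ⟨r, h.2⟩ else 0) =
        A.det * (A.adjugate ⟨w, hw⟩ r * A r ⟨w', hw'⟩) := by
      intro r
      rw [dif_pos ⟨hw, r.2⟩, hA, Matrix.vandermonde_apply]
      ring
    rw [sum_congr rfl (fun r _ => h1 r), ← mul_sum]
    have h2 := Matrix.adjugate_mul A
    have h3 := congrFun (congrFun h2 ⟨w, hw⟩) ⟨w', hw'⟩
    rw [Matrix.mul_apply] at h3
    rw [h3, Matrix.smul_apply, Matrix.one_apply]
    have h4 : (((A.det ^ 2).natAbs : ℕ) : ℤ) = A.det ^ 2 :=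
      Int.natAbs_of_nonneg (sq_nonneg _)
    rw [h4]
    by_cases hww : w' = w
    · subst hww
      rw [if_pos rfl, if_pos rfl, smul_eq_mul]
      ring
    · have h5 : ¬ ((⟨w, hw⟩ : Fin (E + 1)) = ⟨w', hw'⟩) := by
        intro h
        exact hww (Fin.mk.inj h).symm
      rw [if_neg h5, if_neg hww, smul_eq_mul]
      ring

theorem lem (E : ℕ) (hE : 1 ≤ E) : ∃ N1 M' : ℕ, 1 ≤ N1 ∧ 1 ≤ M' ∧ ∀ (D : ℕ) (V W : Type)
    [CommGroup V] [CommGroup W] (𝒱 : Subgroup (RR D → V)) (μ : (RR D → V) → W),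
    (∀ f ∈ 𝒱, ∀ g ∈ 𝒱, μ (f * g) = μ f * μ g) →
    (∀ f ∈ 𝒱, ∀ r : ℤ, (fun q => f (rho D r q)) ∈ 𝒱 ∧ μ (fun q => f (rho D r q)) = μ f ^ r) →
    ∀ F ∈ 𝒱, ∀ Fw : ℕ → RR D → V, (∀ q, F q = ∏ w ∈ range (E + 1), Fw w q) →
    (∀ w q (r : ℤ), Fw w (rho D r q) = Fw w q ^ (r ^ w)) →
    μ F ^ (N1 * M') = μ (fun q => Fw 1 q ^ N1) ^ M' := by
  classical
  obtain ⟨N1, hN1, c, hc⟩ := vander E
  refine ⟨N1, ∏ w ∈ Icc 2 E, (2 ^ w - 2), hN1, ?_, ?_⟩
  · refine Nat.succ_le_of_lt (prod_pos ?_)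
    intro w hw
    have h1 : 2 ≤ w := (mem_Icc.1 hw).1
    have h2 : 2 ^ 2 ≤ 2 ^ w := Nat.pow_le_pow_right (by norm_num) h1
    omega
  intro D V W _ _ 𝒱 μ hmul hρ F hF Fw hFw hFρ
  have hμ1 : μ 1 = 1 := by
    have h1 := hmul 1 (one_mem _) 1 (one_mem _)
    rw [mul_one] at h1
    exact (left_eq_mul.1 h1)
  have hμpow : ∀ f ∈ 𝒱, ∀ n : ℕ, μ (f ^ n) = μ f ^ n := by
    intro f hf n
    induction n with
    | zero => rw [pow_zero, pow_zero, hμ1]
    | succ n ih => rw [pow_succ, pow_succ, hmul _ (pow_mem hf n) _ hf, ih]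
  have hμprod : ∀ (s : Finset ℕ) (g : ℕ → RR D → V), (∀ w ∈ s, g w ∈ 𝒱) →
      μ (∏ w ∈ s, g w) = ∏ w ∈ s, μ (g w) := by
    intro s g
    induction s using Finset.induction_on with
    | empty => intro _; rw [prod_empty, prod_empty, hμ1]
    | insert a s ha ih =>
      intro h
      rw [prod_insert ha, prod_insert ha, hmul _ (h a (mem_insert_self a s)) _
        (prod_mem (fun w hw => h w (mem_insert_of_mem hw))),
        ih (fun w hw => h w (mem_insert_of_mem hw))]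
  obtain ⟨X, hX⟩ : ∃ X : ℕ → RR D → V, ∀ w, X w = fun q => Fw w q ^ N1 := ⟨_, fun w => rfl⟩
  have hXmem : ∀ w ∈ range (E + 1), X w ∈ 𝒱 := by
    intro w hw
    have h1 : X w = ∏ r ∈ range (E + 1), (fun q => F (rho D (r : ℤ) q)) ^ (c w r) := by
      funext q
      rw [hX, Finset.prod_apply]
      have h2 : ∀ r ∈ range (E + 1), ((fun q => F (rho D (r : ℤ) q)) ^ (c w r)) q =
          ∏ w' ∈ range (E + 1), Fw w' q ^ ((r : ℤ) ^ w' * c w r) := by
        intro r _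
        rw [Pi.pow_apply]
        show (F (rho D (r : ℤ) q)) ^ (c w r) = _
        rw [hFw, ← Finset.prod_zpow]
        refine prod_congr rfl (fun w' _ => ?_)
        rw [hFρ, ← zpow_mul]
      rw [prod_congr rfl h2, prod_comm]
      have h3 : ∀ w' ∈ range (E + 1), ∏ r ∈ range (E + 1), Fw w' q ^ ((r : ℤ) ^ w' * c w r) =
          Fw w' q ^ (if w' = w then (N1 : ℤ) else 0) := by
        intro w' hw'
        rw [← hc w hw w' hw']
        exact (prod_zpow_sum _ _ _)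
      rw [prod_congr rfl h3, prod_eq_single w]
      · rw [if_pos rfl, zpow_natCast]
      · intro w' _ hww
        rw [if_neg hww, zpow_zero]
      · intro h
        exact absurd hw h
    rw [h1]
    exact prod_mem (fun r _ => zpow_mem (hρ F hF (r : ℤ)).1 _)
  have hx0 : μ (X 0) = 1 := by
    have h0 : (0 : ℕ) ∈ range (E + 1) := mem_range.2 (by omega)
    have h1 := (hρ (X 0) (hXmem 0 h0) 0).2
    have h2 : (fun q => X 0 (rho D 0 q)) = X 0 := by
      funext q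
      rw [hX]
      show Fw 0 (rho D 0 q) ^ N1 = Fw 0 q ^ N1
      rw [hFρ, pow_zero, zpow_one]
    rw [h2, zpow_zero] at h1
    exact h1
  have hx2 : ∀ w ∈ range (E + 1), 2 ≤ w → μ (X w) ^ (2 ^ w - 2) = 1 := by
    intro w hw h2w
    have h1 := (hρ (X w) (hXmem w hw) 2).2
    have h2 : (fun q => X w (rho D 2 q)) = X w ^ (2 ^ w) := by
      funext q
      rw [hX, Pi.pow_apply]
      show Fw w (rho D 2 q) ^ N1 = (Fw w q ^ N1) ^ (2 ^ w)
      rw [hFρ, ← pow_mul, mul_comm, pow_mul]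
      have : ((2 : ℤ) ^ w) = ((2 ^ w : ℕ) : ℤ) := by push_cast; rfl
      rw [this, zpow_natCast]
    rw [h2, hμpow _ (hXmem w hw)] at h1
    have h3 : 2 ^ w = 2 + (2 ^ w - 2) := by
      have h4 : 2 ^ 2 ≤ 2 ^ w := Nat.pow_le_pow_right (by norm_num) h2w
      omega
    rw [h3, pow_add] at h1
    have h5 : μ (X w) ^ (2 : ℤ) = μ (X w) ^ 2 := by
      rw [show (2 : ℤ) = ((2 : ℕ) : ℤ) by rfl, zpow_natCast]
    rw [h5] at h1
    exact mul_eq_left.1 h1
  have hFX : F ^ N1 = ∏ w ∈ range (E + 1), X w := by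
    funext q
    rw [Pi.pow_apply, Finset.prod_apply, hFw, ← Finset.prod_pow]
    refine prod_congr rfl (fun w _ => ?_)
    rw [hX]
  rw [pow_mul, ← hμpow F hF, hFX, hμprod _ _ hXmem, ← Finset.prod_pow, prod_eq_single 1]
  · rw [hX]
  · intro w hw hw1
    rcases Nat.lt_or_ge w 1 with h | h
    · have : w = 0 := by omega
      rw [this, hx0, one_pow]
    · have h2 : 2 ≤ w := by omega
      have hwE : w ∈ Icc 2 E := mem_Icc.2 ⟨h2, by have := mem_range.1 hw; omega⟩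
      obtain ⟨k, hk⟩ := dvd_prod_of_mem (fun w => 2 ^ w - 2) hwE
      rw [hk, pow_mul, hx2 w hw h2, one_pow]
  · intro h
    exact absurd (mem_range.2 (by omega)) h

/-- the weight of a monomial -/
def wt (D : ℕ) (s : Fin D →₀ ℕ) : ℕ := ∑ l, s l * ((l : ℕ) + 1)

/-- the part of weight `w` of the value of a polynomial -/
noncomputable def pw (D : ℕ) (P : MvPolynomial (Fin D) ℤ) (w : ℕ) (q : RR D) : ℤ :=
  ∑ s ∈ P.support.filter (fun s => wt D s = w), P.coeff s * ∏ l, q l ^ (s l)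

/-- the part of weight `w` of the sum of the coordinates -/
def cw (D : ℕ) (w : ℕ) (q : RR D) : ℤ :=
  ∑ l ∈ univ.filter (fun l : Fin D => (l : ℕ) + 1 = w), q l

theorem pw_rho (D : ℕ) (P : MvPolynomial (Fin D) ℤ) (w : ℕ) (q : RR D) (r : ℤ) :
    pw D P w (rho D r q) = pw D P w q * r ^ w := by
  unfold pw
  rw [sum_mul]
  refine sum_congr rfl (fun s hs => ?_)
  have hs' : wt D s = w := (mem_filter.1 hs).2
  have h1 : ∏ l, (rho D r q) l ^ (s l) = (∏ l, q l ^ (s l)) * r ^ w := by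
    rw [← hs']
    unfold wt
    rw [← prod_pow_eq_pow_sum, ← prod_mul_distrib]
    refine prod_congr rfl (fun l _ => ?_)
    unfold rho
    rw [mul_pow, ← pow_mul, mul_comm (s l) ((l : ℕ) + 1)]
    ring
  rw [h1]
  ring

theorem pw_sum (D : ℕ) (P : MvPolynomial (Fin D) ℤ) (E : ℕ) (hE : ∀ s ∈ P.support, wt D s ≤ E)
    (q : RR D) : ∑ w ∈ range (E + 1), pw D P w q = MvPolynomial.eval q P := by
  rw [MvPolynomial.eval_eq']
  unfold pw
  exact sum_fiberwise_of_maps_to (fun s hs => mem_range.2 (Nat.lt_succ_of_le (hE s hs))) _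

theorem cw_rho (D : ℕ) (w : ℕ) (q : RR D) (r : ℤ) : cw D w (rho D r q) = cw D w q * r ^ w := by
  unfold cw
  rw [sum_mul]
  refine sum_congr rfl (fun l hl => ?_)
  have hl' : (l : ℕ) + 1 = w := (mem_filter.1 hl).2
  unfold rho
  rw [hl']
  ring

theorem cw_sum (D : ℕ) (E : ℕ) (hE : D ≤ E) (q : RR D) :
    ∑ w ∈ range (E + 1), cw D w q = ev D 1 q := by
  unfold cw ev
  rw [sum_fiberwise_of_maps_to (fun l _ => mem_range.2 (by have := l.2; omega))]
  refine sum_congr rfl (fun l _ => ?_)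
  rw [one_pow, mul_one]

theorem pw_one (D : ℕ) (P : MvPolynomial (Fin D) ℤ) (q : RR D) :
    pw D P 1 q = (∑ s ∈ P.support.filter (fun s => wt D s = 1), P.coeff s) * cw D 1 q := by
  unfold pw
  rw [sum_mul]
  refine sum_congr rfl (fun s hs => ?_)
  have hs' : wt D s = 1 := (mem_filter.1 hs).2
  congr 1
  unfold wt at hs'
  obtain ⟨l0, -, hl0⟩ : ∃ l ∈ (univ : Finset (Fin D)), s l * ((l : ℕ) + 1) ≠ 0 := by
    by_contra hcon
    push Not at hcon
    rw [sum_eq_zero hcon] at hs'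
    omega
  have h1 : s l0 * ((l0 : ℕ) + 1) + ∑ l ∈ univ.erase l0, s l * ((l : ℕ) + 1) =
      ∑ l, s l * ((l : ℕ) + 1) :=
    add_sum_erase univ (fun l : Fin D => s l * ((l : ℕ) + 1)) (mem_univ l0)
  rw [hs'] at h1
  have h2 : s l0 * ((l0 : ℕ) + 1) = 1 := by omega
  have h3 : ∑ l ∈ univ.erase l0, s l * ((l : ℕ) + 1) = 0 := by omega
  have h4 : s l0 = 1 := Nat.eq_one_of_mul_eq_one_right h2
  have h5 : (l0 : ℕ) + 1 = 1 := Nat.eq_one_of_mul_eq_one_left h2
  have h6 : ∀ l, l ≠ l0 → s l = 0 := by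
    intro l hl
    have h7 := (sum_eq_zero_iff.1 h3) l (mem_erase.2 ⟨hl, mem_univ l⟩)
    rcases Nat.mul_eq_zero.1 h7 with h | h
    · exact h
    · omega
  rw [prod_eq_single l0]
  · rw [h4, pow_one]
    unfold cw
    rw [sum_eq_single l0]
    · intro l hl hne
      exfalso
      have h8 := (mem_filter.1 hl).2
      exact hne (Fin.ext (by omega))
    · intro h
      exfalso
      apply h
      rw [mem_filter]
      exact ⟨mem_univ _, h5⟩
  · intro l _ hl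
    rw [h6 l hl, pow_zero]
  · intro h
    exact absurd (mem_univ _) h

theorem main (h : S_NEWT) (_h' : S_EV) : S_TOR := by
  classical
  intro D d
  obtain ⟨B, m, d', N0, hN0, -, hP, hf⟩ := h D d
  choose P hP using hP
  obtain ⟨E, hEdef⟩ : ∃ E : ℕ, E = 1 + D + ∑ β ∈ B, ∑ s ∈ (P β).support, wt D s := ⟨_, rfl⟩
  have hE1 : 1 ≤ E := by omega
  have hED : D ≤ E := by omega
  have hEw : ∀ β ∈ B, ∀ s ∈ (P β).support, wt D s ≤ E := by
    intro β hβ s hs
    have h1 : wt D s ≤ ∑ s ∈ (P β).support, wt D s :=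
      single_le_sum (f := wt D) (fun _ _ => Nat.zero_le _) hs
    have h2 : ∑ s ∈ (P β).support, wt D s ≤ ∑ β ∈ B, ∑ s ∈ (P β).support, wt D s :=
      single_le_sum (f := fun β => ∑ s ∈ (P β).support, wt D s) (fun _ _ => Nat.zero_le _) hβ
    omega
  obtain ⟨N1, M', hN1, hM', hlem⟩ := lem E hE1
  refine ⟨N0 * (N1 * M'), Nat.mul_pos hN0 (Nat.mul_pos hN1 hM'), ?_⟩
  intro V W _ _ 𝒱 V0 μ hmul hdeg h0 hρ hk f hfm
  have hμ1 : μ 1 = 1 := by
    have h1 := hmul 1 (one_mem _) 1 (one_mem _)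
    rw [mul_one] at h1
    exact (left_eq_mul.1 h1)
  have hμpow : ∀ f ∈ 𝒱, ∀ n : ℕ, μ (f ^ n) = μ f ^ n := by
    intro f hf n
    induction n with
    | zero => rw [pow_zero, pow_zero, hμ1]
    | succ n ih => rw [pow_succ, pow_succ, hmul _ (pow_mem hf n) _ hf, ih]
  -- decomposition of the power of `f`
  have hF1 := hlem D V W 𝒱 μ hmul hρ (f ^ N0) (pow_mem hfm N0)
    (fun w q => ∏ β ∈ B, f β ^ (pw D (P β) w q)) (by
      intro q
      rw [Pi.pow_apply, hf V f (hdeg f hfm) q, ← Finset.prod_pow, prod_comm]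
      refine prod_congr rfl (fun β hβ => ?_)
      rw [prod_zpow_sum, pw_sum D (P β) E (hEw β hβ) q, ← hP β q,
        mul_comm, zpow_mul, zpow_natCast]) (by
      intro w q r
      show ∏ β ∈ B, f β ^ (pw D (P β) w (rho D r q)) =
        (∏ β ∈ B, f β ^ (pw D (P β) w q)) ^ (r ^ w)
      rw [← Finset.prod_zpow]
      refine prod_congr rfl (fun β _ => ?_)
      rw [pw_rho, zpow_mul])
  -- the comparison function
  obtain ⟨v, hv⟩ : ∃ v : V, v = ∏ β ∈ B, f β ^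
    (∑ s ∈ (P β).support.filter (fun s => wt D s = 1), (P β).coeff s) := ⟨_, rfl⟩
  have hvV0 : v ∈ V0 := by
    rw [hv]
    exact prod_mem (fun β _ => zpow_mem (h0 f hfm β) _)
  obtain ⟨hk1, hk2⟩ := hk v hvV0
  have hK1 := hlem D V W 𝒱 μ hmul hρ (fun q => v ^ (ev D 1 q)) hk1
    (fun w q => v ^ (cw D w q)) (by
      intro q
      rw [prod_zpow_sum, cw_sum D E hED q]) (by
      intro w q r
      show v ^ (cw D w (rho D r q)) = (v ^ (cw D w q)) ^ (r ^ w)
      rw [cw_rho, zpow_mul])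
  rw [hk2, one_pow] at hK1
  have heq : (fun q => (∏ β ∈ B, f β ^ (pw D (P β) 1 q)) ^ N1) =
      fun q => (v ^ (cw D 1 q)) ^ N1 := by
    funext q
    congr 1
    rw [hv, ← Finset.prod_zpow]
    refine prod_congr rfl (fun β _ => ?_)
    rw [pw_one, zpow_mul]
  rw [pow_mul, ← hμpow f hfm N0, hF1]
  show μ (fun q => (∏ β ∈ B, f β ^ (pw D (P β) 1 q)) ^ N1) ^ M' = 1
  rw [heq]
  exact hK1.symm

end Pool.Agent.W54.PR.TOR
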